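import Pool.Agent.W448.FF.Kernel

/-!
# Positivity of the three-label terms (helper554, subtask FF-PS3 of helper448)
-/

set_option autoImplicit false

namespace Pool.Agent.W554.FF

open Finset Pool.Agent.W448.FF

lemma ac_lt {V : Type} (G : OG V) (u v : V) : ac G u v < 3 := by
  unfold ac
  split_ifs <;> norm_num

lemma c3_lt {a b c : ℕ} (ha : a < 3) (hb : b < 3) (hc : c < 3) : c3 a b c < 27 := by
  unfold c3
  simp only [Nat.add_eq, Nat.mul_eq]
  omega

theorem ps3 : S_PS3 := by
  intro x off n L hx V _ G w hw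
  obtain ⟨hw0, hw1⟩ := hw
  have hcode : ∀ a b c : V, c3 (ac G a b) (ac G a c) (ac G b c) < 27 := fun a b c =>
    c3_lt (ac_lt G _ _) (ac_lt G _ _) (ac_lt G _ _)
  have hp : ∀ a b c d : V, c3 (ac G a d) (ac G b d) (ac G c d) < 27 := fun a b c d =>
    c3_lt (ac_lt G _ _) (ac_lt G _ _) (ac_lt G _ _)
  have key : ∀ a b c : V, (off : ℝ) ≤ ∑ d, ∑ e, w d * w e * (K3 x G a b c d e : ℝ) := by
    intro a b c
    set t : ℕ := c3 (ac G a b) (ac G a c) (ac G b c) with ht
    set p : V → ℕ := fun d => c3 (ac G a d) (ac G b d) (ac G c d) with hpd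
    have h1 : ∀ d e : V, (K3 x G a b c d e : ℝ) =
        (off : ℝ) + ∑ j ∈ range n, (L t (p d) j : ℝ) * (L t (p e) j : ℝ) := by
      intro d e
      have h2 := hx t (hcode a b c) (p d) (hp a b c d) (p e) (hp a b c e)
      have h3 : ((x t (p d) (p e) : ℤ) : ℝ) =
          (((off : ℤ) + ∑ j ∈ range n, L t (p d) j * L t (p e) j : ℤ) : ℝ) := by rw [h2]
      push_cast at h3
      unfold K3
      exact_mod_cast h3
    have h4 : ∑ d, ∑ e, w d * w e * (K3 x G a b c d e : ℝ) =
        (off : ℝ) + ∑ j ∈ range n, (∑ d, w d * (L t (p d) j : ℝ)) ^ 2 := by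
      have e1 : ∀ d e : V, w d * w e * (K3 x G a b c d e : ℝ) = (off : ℝ) * (w d * w e) +
          ∑ j ∈ range n, (w d * (L t (p d) j : ℝ)) * (w e * (L t (p e) j : ℝ)) := by
        intro d e
        rw [h1, mul_add, mul_sum]
        congr 1
        · ring
        · exact sum_congr rfl fun j _ => by ring
      simp only [e1, sum_add_distrib]
      congr 1
      · simp only [← mul_sum, hw1, mul_one]
      · have e2 : ∀ d : V, ∑ e, ∑ j ∈ range n,
            (w d * (L t (p d) j : ℝ)) * (w e * (L t (p e) j : ℝ)) =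
            ∑ j ∈ range n, (w d * (L t (p d) j : ℝ)) * ∑ e, w e * (L t (p e) j : ℝ) := by
          intro d
          rw [sum_comm]
          exact sum_congr rfl fun j _ => by rw [mul_sum]
        simp only [e2]
        rw [sum_comm]
        refine sum_congr rfl fun j _ => ?_
        rw [← sum_mul, sq]
    rw [h4]
    have h5 : 0 ≤ ∑ j ∈ range n, (∑ d, w d * (L t (p d) j : ℝ)) ^ 2 :=
      sum_nonneg fun _ _ => sq_nonneg _
    linarith
  have hE : E5 w (fun a b c d e => (K3 x G a b c d e : ℝ)) =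
      ∑ a, ∑ b, ∑ c, w a * w b * w c * ∑ d, ∑ e, w d * w e * (K3 x G a b c d e : ℝ) := by
    unfold E5
    refine sum_congr rfl fun a _ => sum_congr rfl fun b _ => sum_congr rfl fun c _ => ?_
    rw [mul_sum]
    refine sum_congr rfl fun d _ => ?_
    rw [mul_sum]
    exact sum_congr rfl fun e _ => by ring
  have hT : ∑ a, ∑ b, ∑ c, w a * w b * w c * (off : ℝ) = off := by
    simp only [← sum_mul, ← mul_sum, hw1, mul_one, one_mul]
  rw [hE, ← hT]
  refine sum_le_sum fun a _ => sum_le_sum fun b _ => sum_le_sum fun c _ => ?_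
  exact mul_le_mul_of_nonneg_left (key a b c) (mul_nonneg (mul_nonneg (hw0 a) (hw0 b)) (hw0 c))

end Pool.Agent.W554.FF
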